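import Pool.Agent.Helper44.TOT.Defs

/-!
# TOT-W0: first moment lemma
-/

set_option autoImplicit false

namespace Pool.Agent.Helper59.TOT

open Pool.Agent.Helper44.TOT Finset

noncomputable section

/-- primes of the block `(y/2, y]` -/
def PP (y : ℕ) : Finset ℕ := (Finset.Ioc (y / 2) y).filter Nat.Prime

/-- number of primes `p` of the block with `d ∣ p - 1` -/
def Nd (y d : ℕ) : ℕ := ((PP y).filter (fun p => d ∣ p - 1)).card

theorem Nd_le (y d : ℕ) (hd : 1 ≤ d) :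
    Nd y d ≤ ((Icc 1 (y / d)).filter (fun k => (d * k + 1).Prime)).card := by
  refine Finset.card_le_card_of_injOn (fun p => (p - 1) / d) ?_ ?_
  · intro p hp
    simp only [PP, coe_filter, mem_filter, mem_Ioc, Set.mem_ofPred_eq] at hp
    obtain ⟨⟨⟨h1, h2⟩, h3⟩, k, hk⟩ := hp
    have h4 := h3.two_le
    have h5 : (p - 1) / d = k := by
      rw [hk]; exact Nat.mul_div_cancel_left k hd
    simp only [coe_filter, mem_Icc, Set.mem_ofPred_eq, h5]
    have hk1 : 1 ≤ k := by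
      rcases Nat.eq_zero_or_pos k with h | h
      · rw [h, mul_zero] at hk; omega
      · exact h
    refine ⟨⟨hk1, ?_⟩, ?_⟩
    · rw [Nat.le_div_iff_mul_le hd, mul_comm, ← hk]; omega
    · rw [← hk]
      have : p - 1 + 1 = p := by omega
      rw [this]; exact h3
  · intro p hp p' hp' h
    simp only [PP, coe_filter, mem_filter, mem_Ioc, Set.mem_ofPred_eq] at hp hp'
    obtain ⟨⟨_, h3⟩, k, hk⟩ := hp
    obtain ⟨⟨_, h3'⟩, k', hk'⟩ := hp'
    have h4 := h3.two_le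
    have h4' := h3'.two_le
    simp only at h
    rw [hk, hk', Nat.mul_div_cancel_left k hd, Nat.mul_div_cancel_left k' hd] at h
    rw [h] at hk
    omega

theorem Nd_triv (y d : ℕ) (hd : 1 ≤ d) : (Nd y d : ℝ) ≤ (y : ℝ) / d := by
  have h1 : Nd y d ≤ y / d := (Nd_le y d hd).trans ((card_filter_le _ _).trans (by simp))
  calc (Nd y d : ℝ) ≤ ((y / d : ℕ) : ℝ) := by exact_mod_cast h1
    _ ≤ (y : ℝ) / d := Nat.cast_div_le

theorem tot_pow {q j : ℕ} (hq : q.Prime) :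
    ((q ^ j : ℕ) : ℝ) / (q ^ j).totient ≤ 2 := by
  have hpos : 0 < (q ^ j).totient := Nat.totient_pos.2 (pow_pos hq.pos j)
  rw [div_le_iff₀ (by exact_mod_cast hpos)]
  rcases Nat.eq_zero_or_pos j with h | h
  · subst h
    simp
  · rw [Nat.totient_prime_pow hq h]
    have h2 := hq.two_le
    have : q ^ j ≤ 2 * (q ^ (j - 1) * (q - 1)) := by
      obtain ⟨i, rfl⟩ : ∃ i, j = i + 1 := ⟨j - 1, by omega⟩
      rw [Nat.add_sub_cancel, pow_succ]
      have h3 : q ≤ 2 * (q - 1) := by omega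
      calc q ^ i * q ≤ q ^ i * (2 * (q - 1)) := Nat.mul_le_mul_left _ h3
        _ = 2 * (q ^ i * (q - 1)) := by ring
    exact_mod_cast this

/-- Brun-Titchmarsh for prime powers `d ≤ y / t ^ 2` where `t = y ^ (s / 2)` -/
theorem Nd_bt {C : ℝ} (hC : 1 ≤ C)
    (H : ∀ (a X : ℕ), 1 ≤ a → 2 ≤ X →
      (((Finset.Icc 1 X).filter (fun k => (a * k + 1).Prime)).card : ℝ) ≤
      C * ((a : ℝ) / a.totient) * (X / Real.log X))
    {y q j : ℕ} {s : ℝ} (hq : q.Prime) (hs : 0 < s) (hy : 2 ≤ y)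
    (hy2 : 2 ≤ (y : ℝ) ^ (s / 2)) (hd : ((q ^ j : ℕ) : ℝ) ≤ (y : ℝ) ^ (1 - s)) :
    (Nd y (q ^ j) : ℝ) ≤ 4 * C / s * ((y : ℝ) / ((q ^ j : ℕ) * Real.log y)) := by
  have hy0 : (0 : ℝ) < y := by positivity
  have hly : 0 < Real.log y := Real.log_pos (by exact_mod_cast (by omega : 1 < y))
  have hd1 : 1 ≤ q ^ j := Nat.one_le_pow _ _ hq.pos
  have hd0 : (0 : ℝ) < ((q ^ j : ℕ) : ℝ) := by exact_mod_cast hd1
  set d := q ^ j with hdd
  set X := y / d with hX
  have hXle : (X : ℝ) ≤ (y : ℝ) / d := Nat.cast_div_le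
  have hXge : (y : ℝ) ^ (s / 2) ≤ X := by
    have h1 : (y : ℝ) / d < X + 1 := by
      rw [div_lt_iff₀ hd0]
      have := Nat.lt_div_mul_add (a := y) (b := d) hd1
      have h' : y < (X + 1) * d := by
        rw [hX, add_mul, one_mul]; exact this
      exact_mod_cast h'
    have h2 : (y : ℝ) ^ s ≤ (y : ℝ) / d := by
      rw [le_div_iff₀ hd0]
      calc (y : ℝ) ^ s * d ≤ (y : ℝ) ^ s * (y : ℝ) ^ (1 - s) := by gcongr
        _ = y := by
          rw [← Real.rpow_add hy0]; simp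
    have h3 : (y : ℝ) ^ s = (y : ℝ) ^ (s / 2) * (y : ℝ) ^ (s / 2) := by
      rw [← Real.rpow_add hy0]; congr 1; ring
    nlinarith
  have hX2 : 2 ≤ X := by
    have : (2 : ℝ) ≤ X := hy2.trans hXge
    exact_mod_cast this
  have hlogX : s / 2 * Real.log y ≤ Real.log X := by
    rw [← Real.log_rpow hy0]
    exact Real.log_le_log (by positivity) hXge
  have hlX : 0 < Real.log X := lt_of_lt_of_le (by positivity) hlogX
  have h1 : (Nd y d : ℝ) ≤ C * ((d : ℝ) / d.totient) * (X / Real.log X) := by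
    refine le_trans ?_ (H d X hd1 hX2)
    exact_mod_cast Nd_le y d hd1
  have h2 : (d : ℝ) / d.totient ≤ 2 := tot_pow hq
  calc (Nd y d : ℝ) ≤ C * ((d : ℝ) / d.totient) * (X / Real.log X) := h1
    _ ≤ C * 2 * ((y / d : ℝ) / (s / 2 * Real.log y)) := by gcongr
    _ = 4 * C / s * ((y : ℝ) / (d * Real.log y)) := by
      field_simp
      ring

/-- pointwise splitting of `wset` -/
theorem wset_le {y p : ℕ} (E : Finset ℕ) (hE : ∀ q ∈ E, q.Prime) (hp : p ∈ PP y) :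
    wset E (p - 1) ≤ ∑ q ∈ E.filter (fun q => q ≤ y), ((if q ∣ p - 1 then Real.log q else 0) +
      ∑ j ∈ Icc 2 y, if q ^ j ∣ p - 1 then Real.log q else 0) := by
  simp only [PP, mem_filter, mem_Ioc] at hp
  obtain ⟨⟨h1, h2⟩, h3⟩ := hp
  have h4 := h3.two_le
  have hsub : (p - 1).primeFactors ∩ E ⊆ E.filter (fun q => q ≤ y) := by
    intro q hq
    rw [mem_inter] at hq
    rw [mem_filter]
    refine ⟨hq.2, ?_⟩
    have := Nat.le_of_dvd (by omega) (Nat.dvd_of_mem_primeFactors hq.1)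
    omega
  have hlog : ∀ q : ℕ, 0 ≤ Real.log q := fun q => Real.log_natCast_nonneg q
  unfold wset
  refine le_trans (Finset.sum_le_sum (g := fun q => (if q ∣ p - 1 then Real.log q else 0) +
      ∑ j ∈ Icc 2 y, if q ^ j ∣ p - 1 then Real.log q else 0) ?_)
    (Finset.sum_le_sum_of_subset_of_nonneg hsub ?_)
  · intro q hq
    rw [mem_inter] at hq
    have hqp := hE q hq.2
    rw [Nat.factorization_eq_card_pow_dvd _ hqp]
    have hsub2 : (Ico 1 (p - 1)).filter (fun i => q ^ i ∣ p - 1) ⊆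
        insert 1 ((Icc 2 y).filter (fun i => q ^ i ∣ p - 1)) := by
      intro i hi
      rw [mem_filter, mem_Ico] at hi
      rw [mem_insert, mem_filter, mem_Icc]
      by_cases h : i = 1
      · exact Or.inl h
      · exact Or.inr ⟨⟨by omega, by omega⟩, hi.2⟩
    have hc : (((Ico 1 (p - 1)).filter (fun i => q ^ i ∣ p - 1)).card : ℝ) ≤
        1 + ((Icc 2 y).filter (fun i => q ^ i ∣ p - 1)).card := by
      have := (card_le_card hsub2).trans (card_insert_le _ _)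
      have h' : (((Ico 1 (p - 1)).filter (fun i => q ^ i ∣ p - 1)).card : ℝ) ≤
        (((Icc 2 y).filter (fun i => q ^ i ∣ p - 1)).card + 1 : ℕ) := by exact_mod_cast this
      push_cast at h'
      linarith
    rw [if_pos (Nat.dvd_of_mem_primeFactors hq.1), ← Finset.sum_filter, Finset.sum_const,
      nsmul_eq_mul]
    calc (((Ico 1 (p - 1)).filter (fun i => q ^ i ∣ p - 1)).card : ℝ) * Real.log q
        ≤ (1 + ((Icc 2 y).filter (fun i => q ^ i ∣ p - 1)).card) * Real.log q :=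
          mul_le_mul_of_nonneg_right hc (hlog q)
      _ = _ := by ring
  · intro q _ _
    refine add_nonneg ?_ (Finset.sum_nonneg (fun j _ => ?_))
    · split_ifs
      · exact hlog q
      · exact le_refl _
    · split_ifs
      · exact hlog q
      · exact le_refl _

/-- sum of `log q` over a set of prime divisors -/
theorem sum_log_le {n : ℕ} (hn : 1 ≤ n) (S : Finset ℕ) (hS : S ⊆ n.primeFactors) :
    ∑ q ∈ S, Real.log q ≤ Real.log n := by
  have h1 : ∑ q ∈ S, Real.log q ≤ ∑ q ∈ n.primeFactors, Real.log q :=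
    Finset.sum_le_sum_of_subset_of_nonneg hS (fun q _ _ => Real.log_natCast_nonneg q)
  refine h1.trans ?_
  have h2 : ∏ q ∈ n.primeFactors, q ≤ n := Nat.le_of_dvd (by omega) (Nat.prod_primeFactors_dvd n)
  rw [← Real.log_prod (fun q hq => by
    have := (Nat.prime_of_mem_primeFactors hq).pos
    positivity)]
  have h3 : (0 : ℝ) < ∏ q ∈ n.primeFactors, (q : ℝ) :=
    Finset.prod_pos (fun q hq => by exact_mod_cast (Nat.prime_of_mem_primeFactors hq).pos)
  refine Real.log_le_log h3 ?_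
  have : ((∏ q ∈ n.primeFactors, q : ℕ) : ℝ) ≤ n := by exact_mod_cast h2
  push_cast at this
  exact this


/-- the prime power tail sum -/
theorem exists_S0 : ∃ S0 : ℝ, 0 ≤ S0 ∧ ∀ (Q : Finset ℕ) (y : ℕ), (∀ q ∈ Q, q.Prime) →
    ∑ q ∈ Q, ∑ j ∈ Icc 2 y, Real.log q * ((q ^ j : ℕ) : ℝ) ^ (-(3 / 4) : ℝ) ≤ S0 := by
  have hsum : Summable (fun n : ℕ => 12 * (n : ℝ) ^ (-(5 / 4) : ℝ)) :=
    (Real.summable_nat_rpow.2 (by norm_num)).mul_left _
  refine ⟨∑' n : ℕ, 12 * (n : ℝ) ^ (-(5 / 4) : ℝ), tsum_nonneg (fun n => by positivity),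
    fun Q y hQ => ?_⟩
  refine le_trans (Finset.sum_le_sum (g := fun q : ℕ => 12 * (q : ℝ) ^ (-(5 / 4) : ℝ)) ?_)
    (hsum.sum_le_tsum Q (fun n _ => by positivity))
  intro q hq
  have hqp := hQ q hq
  have hq0 : (0 : ℝ) < q := by exact_mod_cast hqp.pos
  have hq2 : (2 : ℝ) ≤ q := by exact_mod_cast hqp.two_le
  set r : ℝ := (q : ℝ) ^ (-(3 / 4) : ℝ) with hr
  have hr0 : 0 < r := Real.rpow_pos_of_pos hq0 _
  have hr1 : r ≤ 2 / 3 := by
    have h1 : r ≤ (2 : ℝ) ^ (-(3 / 4) : ℝ) :=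
      Real.rpow_le_rpow_of_nonpos (by norm_num) hq2 (by norm_num)
    refine h1.trans ?_
    rw [Real.rpow_neg (by norm_num), inv_le_comm₀ (by positivity) (by norm_num)]
    have h2 : ((2 / 3 : ℝ)⁻¹) = (((2 / 3 : ℝ)⁻¹) ^ (4 : ℕ)) ^ ((1 : ℝ) / 4) := by
      rw [← Real.rpow_natCast, ← Real.rpow_mul (by norm_num)]
      norm_num
    have h3 : (2 : ℝ) ^ ((3 : ℝ) / 4) = ((2 : ℝ) ^ (3 : ℕ)) ^ ((1 : ℝ) / 4) := by
      rw [← Real.rpow_natCast, ← Real.rpow_mul (by norm_num)]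
      norm_num
    rw [h2, h3]
    exact Real.rpow_le_rpow (by norm_num) (by norm_num) (by norm_num)
  have hpow : ∀ j : ℕ, ((q ^ j : ℕ) : ℝ) ^ (-(3 / 4) : ℝ) = r ^ j := by
    intro j
    rw [hr, ← Real.rpow_natCast, ← Real.rpow_mul hq0.le]
    push_cast
    rw [← Real.rpow_natCast (q : ℝ) j, ← Real.rpow_mul hq0.le]
    congr 1
    ring
  simp only [hpow]
  rw [← Finset.mul_sum]
  have hg : ∑ j ∈ Icc 2 y, r ^ j ≤ r ^ 2 / (1 - r) := by
    have := geom_sum_Ico_le_of_lt_one (m := 2) (n := y + 1) hr0.le (by linarith)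
    have hI : Icc 2 y = Ico 2 (y + 1) := by
      ext j; simp only [mem_Icc, mem_Ico]; omega
    rw [hI]; exact this
  have hg2 : r ^ 2 / (1 - r) ≤ 3 * r ^ 2 := by
    rw [div_le_iff₀ (by linarith)]
    nlinarith [sq_nonneg r]
  have hlog : Real.log q ≤ 4 * (q : ℝ) ^ ((1 : ℝ) / 4) := by
    have := Real.log_le_rpow_div (x := q) (ε := 1 / 4) hq0.le (by norm_num)
    linarith
  have hlog0 : 0 ≤ Real.log q := Real.log_natCast_nonneg q
  calc Real.log q * ∑ j ∈ Icc 2 y, r ^ j ≤ (4 * (q : ℝ) ^ ((1 : ℝ) / 4)) * (3 * r ^ 2) :=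
        mul_le_mul hlog (hg.trans hg2) (Finset.sum_nonneg (fun j _ => by positivity))
          (by positivity)
    _ = 12 * ((q : ℝ) ^ ((1 : ℝ) / 4) * r ^ 2) := by ring
    _ = 12 * (q : ℝ) ^ (-(5 / 4) : ℝ) := by
      rw [hr, ← Real.rpow_natCast, ← Real.rpow_mul hq0.le, ← Real.rpow_add hq0]
      norm_num

/-- prime powers with exponent at least two: pointwise -/
theorem Nd_high {C : ℝ} (hC : 1 ≤ C)
    (H : ∀ (a X : ℕ), 1 ≤ a → 2 ≤ X →
      (((Finset.Icc 1 X).filter (fun k => (a * k + 1).Prime)).card : ℝ) ≤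
      C * ((a : ℝ) / a.totient) * (X / Real.log X))
    {y q j : ℕ} (hq : q.Prime) (hy : 16 ≤ y) :
    (Nd y (q ^ j) : ℝ) ≤ y * (8 * C / Real.log y + (y : ℝ) ^ (-(1 / 8) : ℝ)) *
      ((q ^ j : ℕ) : ℝ) ^ (-(3 / 4) : ℝ) := by
  have hy0 : (0 : ℝ) < y := by positivity
  have hly : 0 < Real.log y := Real.log_pos (by exact_mod_cast (by omega : 1 < y))
  have hd1 : 1 ≤ q ^ j := Nat.one_le_pow _ _ hq.pos
  have hd0 : (1 : ℝ) ≤ ((q ^ j : ℕ) : ℝ) := by exact_mod_cast hd1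
  have hdpos : (0 : ℝ) < ((q ^ j : ℕ) : ℝ) := by linarith
  set D : ℝ := ((q ^ j : ℕ) : ℝ) with hD
  have hinv : D⁻¹ = D ^ (-(3 / 4) : ℝ) * D ^ (-(1 / 4) : ℝ) := by
    rw [← Real.rpow_add hdpos, ← Real.rpow_neg_one]
    norm_num
  have hp1 : 0 < D ^ (-(3 / 4) : ℝ) := Real.rpow_pos_of_pos hdpos _
  have hp2 : 0 < (y : ℝ) ^ (-(1 / 8) : ℝ) := Real.rpow_pos_of_pos hy0 _
  by_cases h : D ≤ (y : ℝ) ^ ((1 : ℝ) / 2)
  · have hy2 : (2 : ℝ) ≤ (y : ℝ) ^ (((1 : ℝ) / 2) / 2) := by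
      have h16 : (16 : ℝ) ≤ y := by exact_mod_cast hy
      have h1 : (2 : ℝ) = (16 : ℝ) ^ (((1 : ℝ) / 2) / 2) := by
        rw [show (16 : ℝ) = 2 ^ (4 : ℕ) by norm_num, ← Real.rpow_natCast,
          ← Real.rpow_mul (by norm_num)]
        norm_num
      calc (2 : ℝ) = (16 : ℝ) ^ (((1 : ℝ) / 2) / 2) := h1
        _ ≤ _ := Real.rpow_le_rpow (by norm_num) h16 (by norm_num)
    have h' : D ≤ (y : ℝ) ^ (1 - (1 : ℝ) / 2) := by
      rw [show (1 : ℝ) - 1 / 2 = 1 / 2 by norm_num]; exact h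
    have hb := Nd_bt hC H (s := 1 / 2) hq (by norm_num) (by omega) hy2 h'
    have hD4 : D ^ (-(1 / 4) : ℝ) ≤ 1 := by
      exact Real.rpow_le_one_of_one_le_of_nonpos hd0 (by norm_num)
    calc (Nd y (q ^ j) : ℝ) ≤ 4 * C / (1 / 2) * ((y : ℝ) / (D * Real.log y)) := hb
      _ = 8 * C / Real.log y * y * D⁻¹ := by
        field_simp
        ring
      _ = 8 * C / Real.log y * y * (D ^ (-(3 / 4) : ℝ) * D ^ (-(1 / 4) : ℝ)) := by rw [hinv]
      _ ≤ 8 * C / Real.log y * y * (D ^ (-(3 / 4) : ℝ) * 1) := by gcongr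
      _ = y * (8 * C / Real.log y + 0) * D ^ (-(3 / 4) : ℝ) := by ring
      _ ≤ _ := by gcongr
  · push Not at h
    have hD4 : D ^ (-(1 / 4) : ℝ) ≤ (y : ℝ) ^ (-(1 / 8) : ℝ) := by
      have h1 : ((y : ℝ) ^ ((1 : ℝ) / 2)) ^ (-(1 / 4) : ℝ) = (y : ℝ) ^ (-(1 / 8) : ℝ) := by
        rw [← Real.rpow_mul hy0.le]; norm_num
      rw [← h1]
      exact Real.rpow_le_rpow_of_nonpos (Real.rpow_pos_of_pos hy0 _) h.le (by norm_num)
    have h8 : 0 ≤ 8 * C / Real.log y := by positivity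
    calc (Nd y (q ^ j) : ℝ) ≤ (y : ℝ) / D := Nd_triv y _ hd1
      _ = y * (D ^ (-(3 / 4) : ℝ) * D ^ (-(1 / 4) : ℝ)) := by rw [← hinv]; rfl
      _ ≤ y * (D ^ (-(3 / 4) : ℝ) * (y : ℝ) ^ (-(1 / 8) : ℝ)) := by gcongr
      _ = y * (0 + (y : ℝ) ^ (-(1 / 8) : ℝ)) * D ^ (-(3 / 4) : ℝ) := by ring
      _ ≤ _ := by gcongr


/-- exchanging the summations -/
theorem sum_exchange (y : ℕ) (Q : Finset ℕ) (d : ℕ → ℕ) :
    ∑ p ∈ PP y, ∑ q ∈ Q, (if d q ∣ p - 1 then Real.log q else 0) =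
      ∑ q ∈ Q, Real.log q * Nd y (d q) := by
  rw [Finset.sum_comm]
  refine Finset.sum_congr rfl (fun q _ => ?_)
  rw [← Finset.sum_filter, Finset.sum_const, nsmul_eq_mul, mul_comm]
  rfl

/-- the very large primes -/
theorem large_part {y : ℕ} (Q : Finset ℕ) (hQ : ∀ q ∈ Q, q.Prime) (T : ℝ)
    (B : ℝ) (hB : ∀ S : Finset ℕ, (∀ p ∈ S, p.Prime ∧ y / 2 < p ∧ p ≤ y ∧
      ∃ q : ℕ, q.Prime ∧ q ∣ p - 1 ∧ T ≤ q) → (S.card : ℝ) ≤ B) :
    ∑ q ∈ Q.filter (fun q : ℕ => T ≤ (q : ℝ)), Real.log q * Nd y q ≤ B * Real.log y := by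
  classical
  rw [← sum_exchange y (Q.filter (fun q : ℕ => T ≤ (q : ℝ))) (fun q => q)]
  set S := (PP y).filter (fun p => ∃ q : ℕ, q.Prime ∧ q ∣ p - 1 ∧ T ≤ q) with hS
  have hly : 0 ≤ Real.log y := Real.log_natCast_nonneg y
  have h1 : ∑ p ∈ PP y, ∑ q ∈ Q.filter (fun q : ℕ => T ≤ (q : ℝ)),
      (if q ∣ p - 1 then Real.log q else 0) ≤
      ∑ p ∈ PP y, if p ∈ S then Real.log y else 0 := by
    refine Finset.sum_le_sum (fun p hp => ?_)
    have hp' := hp
    simp only [PP, mem_filter, mem_Ioc] at hp'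
    obtain ⟨⟨h1, h2⟩, h3⟩ := hp'
    have h4 := h3.two_le
    by_cases hpS : p ∈ S
    · rw [if_pos hpS, ← Finset.sum_filter]
      refine (sum_log_le (n := p - 1) (by omega) _ ?_).trans ?_
      · intro q hq
        simp only [mem_filter] at hq
        rw [Nat.mem_primeFactors]
        exact ⟨hQ q hq.1.1, hq.2, by omega⟩
      · refine Real.log_le_log ?_ ?_
        · exact_mod_cast (by omega : 0 < p - 1)
        · exact_mod_cast (by omega : p - 1 ≤ y)
    · rw [if_neg hpS]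
      refine le_of_eq (Finset.sum_eq_zero (fun q hq => ?_))
      rw [if_neg]
      intro hd
      rw [mem_filter] at hq
      exact hpS (by rw [hS, mem_filter]; exact ⟨hp, q, hQ q hq.1, hd, hq.2⟩)
  refine h1.trans ?_
  rw [← Finset.sum_filter, Finset.sum_const, nsmul_eq_mul]
  refine mul_le_mul_of_nonneg_right (hB _ ?_) hly
  intro p hp
  rw [mem_filter, hS, mem_filter] at hp
  have hp1 := hp.1
  simp only [PP, mem_filter, mem_Ioc] at hp1
  exact ⟨hp1.2, hp1.1.1, hp1.1.2, hp.2.2⟩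

theorem fM (h1 : BT) (h2 : N5) (h3 : LogSum) : FM := by
  obtain ⟨C, hC, H⟩ := h1
  obtain ⟨C5, hC5, H5⟩ := h2
  obtain ⟨CL, hCL, HL⟩ := h3
  obtain ⟨S0, hS0, HS⟩ := exists_S0
  have hlog2 : 0 < Real.log 2 := Real.log_pos (by norm_num)
  set CF : ℝ := 8 * C * CL + 4 * C + C5 + (8 * C + 1) * S0 / Real.log 2 with hCF
  have hCFS : 0 ≤ (8 * C + 1) * S0 / Real.log 2 := by positivity
  have h8C : 0 ≤ 8 * C * CL := by positivity
  refine ⟨CF, by rw [hCF]; linarith, fun v1 hv hv' => ?_⟩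
  obtain ⟨Y5, hY5⟩ := H5 v1 hv hv'
  obtain ⟨Y1, hY1⟩ : ∃ Y1 : ℕ, ∀ y : ℕ, Y1 ≤ y → Real.log y ≤ (y : ℝ) ^ ((1 : ℝ) / 8) := by
    have h := (isLittleO_log_rpow_atTop (show (0 : ℝ) < 1 / 8 by norm_num)).bound
      (show (0 : ℝ) < 1 by norm_num)
    have h' := (tendsto_natCast_atTop_atTop (R := ℝ)).eventually h
    obtain ⟨Y1, hY1⟩ := Filter.eventually_atTop.1 h'
    refine ⟨Y1, fun y hy => ?_⟩
    have := hY1 y hy
    rw [one_mul, Real.norm_eq_abs, Real.norm_eq_abs,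
      abs_of_nonneg (Real.rpow_nonneg (Nat.cast_nonneg y) _)] at this
    exact (le_abs_self _).trans this
  refine ⟨max (max Y5 Y1) (max ⌈(2 : ℝ) ^ (2 / v1)⌉₊ 16), fun y E w hy hw hw2 hE => ?_⟩
  have hyY5 : Y5 ≤ y := le_trans (le_trans (le_max_left _ _) (le_max_left _ _)) hy
  have hyY1 : Y1 ≤ y := le_trans (le_trans (le_max_right _ _) (le_max_left _ _)) hy
  have hyY2 : ⌈(2 : ℝ) ^ (2 / v1)⌉₊ ≤ y :=
    le_trans (le_trans (le_max_left _ _) (le_max_right _ _)) hy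
  have hy16 : 16 ≤ y := le_trans (le_trans (le_max_right _ _) (le_max_right _ _)) hy
  have hy0 : (0 : ℝ) < y := by exact_mod_cast (by omega : 0 < y)
  have hy1 : (1 : ℝ) < y := by exact_mod_cast (by omega : 1 < y)
  set L := Real.log y with hL
  have hL0 : 0 < L := Real.log_pos hy1
  have hyv : (2 : ℝ) ≤ (y : ℝ) ^ (v1 / 2) := by
    have h1 : (2 : ℝ) ^ (2 / v1) ≤ y := (Nat.le_ceil _).trans (by exact_mod_cast hyY2)
    have h2 : (2 : ℝ) = ((2 : ℝ) ^ (2 / v1)) ^ (v1 / 2) := by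
      rw [← Real.rpow_mul (by norm_num)]
      have : 2 / v1 * (v1 / 2) = 1 := by field_simp
      rw [this, Real.rpow_one]
    calc (2 : ℝ) = ((2 : ℝ) ^ (2 / v1)) ^ (v1 / 2) := h2
      _ ≤ _ := Real.rpow_le_rpow (by positivity) h1 (by positivity)
  have hlogw : 0 < Real.log w := Real.log_pos (by linarith)
  set Q := E.filter (fun q => q ≤ y) with hQ
  have hQp : ∀ q ∈ Q, q.Prime := fun q hq => hE q (mem_filter.1 hq).1
  -- splitting
  have hsplit : ∑ p ∈ (Finset.Ioc (y / 2) y).filter Nat.Prime, wset E (p - 1) ≤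
      ∑ q ∈ Q, Real.log q * Nd y q + ∑ q ∈ Q, ∑ j ∈ Icc 2 y, Real.log q * Nd y (q ^ j) := by
    have e1 : ∑ q ∈ Q, ∑ j ∈ Icc 2 y, Real.log q * (Nd y (q ^ j) : ℝ) =
        ∑ p ∈ PP y, ∑ q ∈ Q, ∑ j ∈ Icc 2 y, if q ^ j ∣ p - 1 then Real.log q else 0 := by
      rw [Finset.sum_comm]
      have : ∀ p ∈ PP y, ∑ q ∈ Q, ∑ j ∈ Icc 2 y, (if q ^ j ∣ p - 1 then Real.log q else 0) =
          ∑ j ∈ Icc 2 y, ∑ q ∈ Q, (if q ^ j ∣ p - 1 then Real.log q else 0) :=
        fun p _ => Finset.sum_comm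
      rw [Finset.sum_congr rfl this, Finset.sum_comm (s := PP y)]
      exact Finset.sum_congr rfl (fun j _ => (sum_exchange y Q (fun q => q ^ j)).symm)
    rw [e1, ← sum_exchange y Q (fun q => q), ← Finset.sum_add_distrib]
    refine Finset.sum_le_sum (fun p hp => ?_)
    rw [← Finset.sum_add_distrib]
    exact wset_le E hE hp
  -- higher powers
  have hhigh : ∑ q ∈ Q, ∑ j ∈ Icc 2 y, Real.log q * (Nd y (q ^ j) : ℝ) ≤
      (8 * C + 1) * S0 / Real.log 2 * (y * (Real.log w / L)) := by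
    have hsmall : (y : ℝ) ^ (-(1 / 8) : ℝ) ≤ 1 / L := by
      rw [Real.rpow_neg hy0.le, one_div L]
      exact inv_anti₀ hL0 (hY1 y hyY1)
    have hcoef : 8 * C / L + (y : ℝ) ^ (-(1 / 8) : ℝ) ≤ (8 * C + 1) / L := by
      rw [add_div]; linarith
    calc ∑ q ∈ Q, ∑ j ∈ Icc 2 y, Real.log q * (Nd y (q ^ j) : ℝ)
        ≤ ∑ q ∈ Q, ∑ j ∈ Icc 2 y, (y * ((8 * C + 1) / L)) *
            (Real.log q * ((q ^ j : ℕ) : ℝ) ^ (-(3 / 4) : ℝ)) := by
          refine Finset.sum_le_sum (fun q hq => Finset.sum_le_sum (fun j _ => ?_))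
          have hb := Nd_high hC H (y := y) (j := j) (hQp q hq) hy16
          have hlq : 0 ≤ Real.log q := Real.log_natCast_nonneg q
          have hD : 0 ≤ ((q ^ j : ℕ) : ℝ) ^ (-(3 / 4) : ℝ) :=
            Real.rpow_nonneg (Nat.cast_nonneg _) _
          calc Real.log q * (Nd y (q ^ j) : ℝ)
              ≤ Real.log q * (y * (8 * C / Real.log y + (y : ℝ) ^ (-(1 / 8) : ℝ)) *
                ((q ^ j : ℕ) : ℝ) ^ (-(3 / 4) : ℝ)) := mul_le_mul_of_nonneg_left hb hlq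
            _ ≤ Real.log q * (y * ((8 * C + 1) / L) * ((q ^ j : ℕ) : ℝ) ^ (-(3 / 4) : ℝ)) := by
                gcongr
            _ = _ := by ring
      _ = (y * ((8 * C + 1) / L)) * ∑ q ∈ Q, ∑ j ∈ Icc 2 y,
            (Real.log q * ((q ^ j : ℕ) : ℝ) ^ (-(3 / 4) : ℝ)) := by
          rw [Finset.mul_sum]
          exact Finset.sum_congr rfl (fun q _ => by rw [Finset.mul_sum])
      _ ≤ (y * ((8 * C + 1) / L)) * S0 := by
          refine mul_le_mul_of_nonneg_left (HS Q y hQp) (by positivity)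
      _ = (8 * C + 1) * S0 * (y * (1 / L)) := by ring
      _ ≤ (8 * C + 1) * S0 * (y * (Real.log w / Real.log 2 / L)) := by
          have : 1 ≤ Real.log w / Real.log 2 := by
            rw [le_div_iff₀ hlog2, one_mul]
            exact Real.log_le_log (by norm_num) hw
          gcongr
      _ = _ := by ring
  -- first powers, pointwise
  have hfirst : ∑ q ∈ Q, Real.log q * (Nd y q : ℝ) ≤
      ∑ q ∈ Q, ((if (q : ℝ) ≤ w then 8 * C * y / L * (Real.log q / q) else 0) +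
        4 * C * y / (v1 * L) * (if w < (q : ℝ) ∧ q ≤ y then Real.log q / q else 0) +
        (if (y : ℝ) ^ (1 - v1) ≤ (q : ℝ) then Real.log q * Nd y q else 0)) := by
    refine Finset.sum_le_sum (fun q hq => ?_)
    have hqp := hQp q hq
    have hqy : q ≤ y := (mem_filter.1 hq).2
    have hq0 : (0 : ℝ) < q := by exact_mod_cast hqp.pos
    have hlq : 0 ≤ Real.log q := Real.log_natCast_nonneg q
    have t1 : 0 ≤ (if (q : ℝ) ≤ w then 8 * C * y / L * (Real.log q / q) else 0) := by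
      split_ifs
      · positivity
      · exact le_refl _
    have t2 : 0 ≤ 4 * C * y / (v1 * L) *
        (if w < (q : ℝ) ∧ q ≤ y then Real.log q / q else 0) := by
      refine mul_nonneg (by positivity) ?_
      split_ifs
      · positivity
      · exact le_refl _
    by_cases hbig : (y : ℝ) ^ (1 - v1) ≤ (q : ℝ)
    · rw [if_pos hbig]; linarith
    · rw [if_neg hbig, add_zero]
      push Not at hbig
      by_cases hqw : (q : ℝ) ≤ w
      · rw [if_pos hqw]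
        have h' : ((q ^ 1 : ℕ) : ℝ) ≤ (y : ℝ) ^ (1 - (1 : ℝ) / 2) := by
          rw [pow_one, show (1 : ℝ) - 1 / 2 = 1 / 2 by norm_num]; exact hqw.trans hw2
        have hy2 : (2 : ℝ) ≤ (y : ℝ) ^ (((1 : ℝ) / 2) / 2) := by
          refine hyv.trans (Real.rpow_le_rpow_of_exponent_le hy1.le (by linarith))
        have hb := Nd_bt hC H (s := 1 / 2) hqp (by norm_num) (by omega) hy2 h'
        rw [pow_one] at hb
        have : Real.log q * (Nd y q : ℝ) ≤ 8 * C * y / L * (Real.log q / q) := by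
          calc Real.log q * (Nd y q : ℝ)
              ≤ Real.log q * (4 * C / (1 / 2) * ((y : ℝ) / ((q : ℝ) * Real.log y))) :=
                mul_le_mul_of_nonneg_left hb hlq
            _ = _ := by
                rw [← hL]
                field_simp
                ring
        linarith
      · push Not at hqw
        rw [if_neg (not_le.2 hqw), if_pos ⟨hqw, hqy⟩, zero_add]
        have h' : ((q ^ 1 : ℕ) : ℝ) ≤ (y : ℝ) ^ (1 - v1) := by
          rw [pow_one]; exact hbig.le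
        have hb := Nd_bt hC H (s := v1) hqp hv (by omega) hyv h'
        rw [pow_one] at hb
        calc Real.log q * (Nd y q : ℝ)
            ≤ Real.log q * (4 * C / v1 * ((y : ℝ) / ((q : ℝ) * Real.log y))) :=
              mul_le_mul_of_nonneg_left hb hlq
          _ = _ := by
              rw [← hL]
              field_simp
  rw [Finset.sum_add_distrib, Finset.sum_add_distrib, ← Finset.mul_sum, ← Finset.sum_filter,
    ← Finset.sum_filter (fun q : ℕ => (y : ℝ) ^ (1 - v1) ≤ (q : ℝ)), ← Finset.mul_sum] at hfirst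
  have ha : ∑ q ∈ Q.filter (fun q : ℕ => (q : ℝ) ≤ w), Real.log q / q ≤ CL * Real.log w := by
    have hw0 : 0 ≤ w := by linarith
    have hfl : 2 ≤ ⌊w⌋₊ := Nat.le_floor (by exact_mod_cast hw)
    have hsub : Q.filter (fun q : ℕ => (q : ℝ) ≤ w) ⊆ (Icc 1 ⌊w⌋₊).filter Nat.Prime := by
      intro q hq
      rw [mem_filter] at hq
      rw [mem_filter, mem_Icc]
      exact ⟨⟨(hQp q hq.1).one_le, Nat.le_floor hq.2⟩, hQp q hq.1⟩
    refine (Finset.sum_le_sum_of_subset_of_nonneg hsub (fun q _ _ => ?_)).trans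
      ((HL ⌊w⌋₊ hfl).trans ?_)
    · exact div_nonneg (Real.log_natCast_nonneg q) (Nat.cast_nonneg q)
    · refine mul_le_mul_of_nonneg_left (Real.log_le_log ?_ (Nat.floor_le hw0)) (by linarith)
      exact_mod_cast (by omega : 0 < ⌊w⌋₊)
  have hb : ∑ q ∈ Q, (if w < (q : ℝ) ∧ q ≤ y then Real.log q / q else 0) ≤
      ∑ q ∈ E, (if w < (q : ℝ) ∧ q ≤ y then Real.log q / q else 0) := by
    refine Finset.sum_le_sum_of_subset_of_nonneg (filter_subset _ _) (fun q _ _ => ?_)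
    split_ifs
    · exact div_nonneg (Real.log_natCast_nonneg q) (Nat.cast_nonneg q)
    · exact le_refl _
  set Sb : ℝ := ∑ q ∈ E, (if w < (q : ℝ) ∧ q ≤ y then Real.log q / q else 0) with hSb
  have hSb0 : 0 ≤ Sb := by
    refine Finset.sum_nonneg (fun q _ => ?_)
    split_ifs
    · exact div_nonneg (Real.log_natCast_nonneg q) (Nat.cast_nonneg q)
    · exact le_refl _
  have hc := large_part (y := y) Q hQp ((y : ℝ) ^ (1 - v1)) (C5 * v1 * (y / L))
    (fun S hS => hY5 y S hyY5 hS)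
  have hc' : C5 * v1 * (y / L) * Real.log y = C5 * (y * v1) := by
    rw [← hL]; field_simp
  rw [hc'] at hc
  have ha' : 8 * C * y / L * ∑ q ∈ Q.filter (fun q : ℕ => (q : ℝ) ≤ w), Real.log q / q ≤
      8 * C * CL * (y * (Real.log w / L)) := by
    calc _ ≤ 8 * C * y / L * (CL * Real.log w) := mul_le_mul_of_nonneg_left ha (by positivity)
      _ = _ := by ring
  have hb' : 4 * C * y / (v1 * L) *
      ∑ q ∈ Q, (if w < (q : ℝ) ∧ q ≤ y then Real.log q / q else 0) ≤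
      4 * C * (y * (1 / (v1 * L) * Sb)) := by
    calc _ ≤ 4 * C * y / (v1 * L) * Sb := mul_le_mul_of_nonneg_left hb (by positivity)
      _ = _ := by ring
  have A : 0 ≤ y * (Real.log w / L) := by positivity
  have B : 0 ≤ y * v1 := by positivity
  have D : 0 ≤ y * (1 / (v1 * L) * Sb) := by positivity
  have k1 : 8 * C * CL + (8 * C + 1) * S0 / Real.log 2 ≤ CF := by rw [hCF]; linarith
  have k2 : C5 ≤ CF := by rw [hCF]; linarith
  have k3 : 4 * C ≤ CF := by rw [hCF]; linarith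
  calc ∑ p ∈ (Finset.Ioc (y / 2) y).filter Nat.Prime, wset E (p - 1)
      ≤ (8 * C * CL + (8 * C + 1) * S0 / Real.log 2) * (y * (Real.log w / L)) +
        C5 * (y * v1) + 4 * C * (y * (1 / (v1 * L) * Sb)) := by linarith
    _ ≤ CF * (y * (Real.log w / L)) + CF * (y * v1) + CF * (y * (1 / (v1 * L) * Sb)) := by
        gcongr
    _ = CF * y * (Real.log w / L + v1 + 1 / (v1 * L) * Sb) := by ring

end

end Pool.Agent.Helper59.TOT
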